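import Pool.Agent.H94.LP3.M10
import Pool.Agent.H94.LP3.M12

/-!
# Module VNumb (UB): numerical consequences
-/

namespace Pool.Agent.H18.Ub

open Finset Pool.Agent.H18.Ex Pool.Agent.H18.Cub Pool.Agent.H18.Ua

variable {n M t w : ℕ}

private theorem nphiw_mul (n : ℕ) (t w : ℕ) :
    M * nphiw n M w t ≤ (M - 1) * t + M * ((ell n M + w) * ell n M) := by
  unfold nphiw
  have h : M * ((M - 1) * t / M) ≤ (M - 1) * t := Nat.mul_div_le _ _
  calc M * ((M - 1) * t / M + (ell n M + w) * ell n M) =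
        M * ((M - 1) * t / M) + M * ((ell n M + w) * ell n M) := by ring
    _ ≤ _ := Nat.add_le_add_right h _

/-- The basic bound. -/
private theorem base_bound (ht : TU n M ≤ t) (hw : EV n M * w ≤ t) :
    4 * M * (M + 1) * ((ell n M + w) * ell n M) ≤ t := by
  have h1 : 2 * (4 * M * (M + 1) * ((ell n M + w) * ell n M)) = TU n M + EV n M * w := by
    unfold TU EV
    ring
  omega

private theorem EV_ge (n : ℕ) (hM : 1 ≤ M) : 8 * M * (M + 1) ≤ EV n M := by
  unfold EV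
  exact Nat.le_mul_of_pos_right _ (ell_pos n hM)

private theorem EV_le (n : ℕ) (hM : 1 ≤ M) (ht : TU n M ≤ t) : EV n M ≤ t := by
  refine le_trans ?_ ht
  unfold EV TU
  have h1 := ell_pos n hM
  calc 8 * M * (M + 1) * ell n M = 8 * M * (M + 1) * (ell n M * 1) := by ring
    _ ≤ 8 * M * (M + 1) * (ell n M * ell n M) :=
        Nat.mul_le_mul_left _ (Nat.mul_le_mul_left _ h1)
    _ = 8 * M * (M + 1) * ell n M ^ 2 := by ring

private theorem EV16 (n : ℕ) (hM : 1 ≤ M) : 16 * M ≤ EV n M := by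
  have h1 := EV_ge n hM
  have h2 : 8 * M * 2 ≤ 8 * M * (M + 1) := Nat.mul_le_mul_left _ (by omega)
  omega

/-- The bound for the traces of the forced conditions. -/
theorem nphiw_le (hM : 1 ≤ M) (ht : TU n M ≤ t) (hw : EV n M * w ≤ t) : nphiw n M w t ≤ t := by
  have h := nphiw_mul (M := M) n t w
  have hb := base_bound ht hw
  set Z := (ell n M + w) * ell n M
  have h1 : M * Z ≤ t := by
    refine le_trans ?_ hb
    calc M * Z = M * 1 * Z := by ring
      _ ≤ M * (4 * (M + 1)) * Z := Nat.mul_le_mul_right _ (Nat.mul_le_mul_left _ (by omega))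
      _ = 4 * M * (M + 1) * Z := by ring
  have h2 : M * nphiw n M w t ≤ M * t := by
    obtain ⟨m, rfl⟩ : ∃ m, M = m + 1 := ⟨M - 1, by omega⟩
    rw [Nat.add_sub_cancel] at h
    calc (m + 1) * nphiw n (m + 1) w t ≤ m * t + (m + 1) * Z := h
      _ ≤ m * t + t := by omega
      _ = (m + 1) * t := by ring
  exact Nat.le_of_mul_le_mul_left h2 (by omega)

/-- `E M Z ≤ E t / 8` and `M t ≤ E t / 16`. -/
private theorem two_bounds (hM : 1 ≤ M) (ht : TU n M ≤ t) (hw : EV n M * w ≤ t) :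
    8 * (EV n M * (M * ((ell n M + w) * ell n M))) ≤ EV n M * t ∧
      16 * (M * t) ≤ EV n M * t := by
  have hb := base_bound ht hw
  set Z := (ell n M + w) * ell n M
  constructor
  · have h1 : 8 * (M * Z) ≤ t := by
      refine le_trans ?_ hb
      calc 8 * (M * Z) = M * 8 * Z := by ring
        _ ≤ M * (4 * (M + 1)) * Z := Nat.mul_le_mul_right _ (Nat.mul_le_mul_left _ (by omega))
        _ = 4 * M * (M + 1) * Z := by ring
    calc 8 * (EV n M * (M * Z)) = EV n M * (8 * (M * Z)) := by ring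
      _ ≤ EV n M * t := Nat.mul_le_mul_left _ h1
  · calc 16 * (M * t) = 16 * M * t := by ring
      _ ≤ EV n M * t := Nat.mul_le_mul_right _ (EV16 n hM)

private theorem pure_room {M E t Z w F φ : ℕ} (hM : 1 ≤ M) (hE : 16 * M ≤ E) (hEt : E ≤ t)
    (hw : E * w ≤ t) (h : M * φ ≤ (M - 1) * t + M * Z) (b1 : 8 * (E * (M * Z)) ≤ E * t)
    (b2 : 16 * (M * t) ≤ E * t) (hF : (E - 1) * t ≤ E * F) :
    E * (M * (φ + w + 1)) ≤ E * (M * F) := by
  have h4 : E * (M * φ) ≤ E * ((M - 1) * t + M * Z) := Nat.mul_le_mul_left _ h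
  have h5 : M * (E * w) ≤ M * t := Nat.mul_le_mul_left _ hw
  have h6 : M * E ≤ M * t := Nat.mul_le_mul_left _ hEt
  have h7 : M * ((E - 1) * t) ≤ M * (E * F) := Nat.mul_le_mul_left _ hF
  obtain ⟨m, rfl⟩ : ∃ m, M = m + 1 := ⟨M - 1, by omega⟩
  obtain ⟨e, rfl⟩ : ∃ e, E = e + 1 := ⟨E - 1, by omega⟩
  rw [Nat.add_sub_cancel] at h4 h7
  nlinarith [h4, h5, h6, h7, b1, b2]

private theorem pure_margin {M E t Z F φ : ℕ} (hM : 1 ≤ M) (hE : 16 * M ≤ E)
    (h : M * φ ≤ (M - 1) * t + M * Z) (b1 : 8 * (E * (M * Z)) ≤ E * t)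
    (b2 : 16 * (M * t) ≤ E * t) (hF : (E - 1) * t ≤ E * F) :
    E * (t + 2 * M * φ) ≤ E * (2 * M * F) := by
  have h4 : E * (M * φ) ≤ E * ((M - 1) * t + M * Z) := Nat.mul_le_mul_left _ h
  have h7 : M * ((E - 1) * t) ≤ M * (E * F) := Nat.mul_le_mul_left _ hF
  obtain ⟨m, rfl⟩ : ∃ m, M = m + 1 := ⟨M - 1, by omega⟩
  obtain ⟨e, rfl⟩ : ∃ e, E = e + 1 := ⟨E - 1, by omega⟩
  rw [Nat.add_sub_cancel] at h4 h7
  nlinarith [h4, h7, b1, b2]

/-- Room for the forced conditions. -/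
theorem nphiw_room (hM : 1 ≤ M) (ht : TU n M ≤ t) (hw : EV n M * w ≤ t) {F : ℕ}
    (hF : (EV n M - 1) * t ≤ EV n M * F) : nphiw n M w t + w + 1 ≤ F := by
  have h := nphiw_mul (M := M) n t w
  obtain ⟨b1, b2⟩ := two_bounds hM ht hw
  have hE16 := EV16 n hM
  have h3 := pure_room hM hE16 (EV_le n hM ht) hw h b1 b2 hF
  have h8 : M * (nphiw n M w t + w + 1) ≤ M * F := Nat.le_of_mul_le_mul_left h3 (by omega)
  exact Nat.le_of_mul_le_mul_left h8 (by omega)

/-- The margin of one hyperplane. -/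
theorem nphiw_margin (hM : 1 ≤ M) (ht : TU n M ≤ t) (hw : EV n M * w ≤ t) {F : ℕ}
    (hF : (EV n M - 1) * t ≤ EV n M * F) : t + 2 * M * nphiw n M w t ≤ 2 * M * F := by
  have h := nphiw_mul (M := M) n t w
  obtain ⟨b1, b2⟩ := two_bounds hM ht hw
  have hE16 := EV16 n hM
  exact Nat.le_of_mul_le_mul_left (pure_margin hM hE16 h b1 b2 hF) (by omega)

theorem F_ge_half (hM : 1 ≤ M) {F : ℕ} (hF : (EV n M - 1) * t ≤ EV n M * F) :
    15 * t ≤ 16 * F := by
  have hE16 := EV16 n hM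
  obtain ⟨e, he⟩ : ∃ e, EV n M = e + 16 := ⟨EV n M - 16, by omega⟩
  rw [he] at hF
  have h1 : e + 16 - 1 = e + 15 := by omega
  rw [h1] at hF
  by_contra hcon
  push Not at hcon
  have h2 : 16 * ((e + 16) * F) < (e + 16) * (15 * t) := by
    calc 16 * ((e + 16) * F) = (e + 16) * (16 * F) := by ring
      _ < (e + 16) * (15 * t) := Nat.mul_lt_mul_of_pos_left hcon (by omega)
  have h3 : 16 * ((e + 15) * t) ≤ 16 * ((e + 16) * F) := Nat.mul_le_mul_left _ hF
  have h4 : (e + 16) * (15 * t) ≤ 16 * ((e + 15) * t) := by nlinarith [Nat.zero_le (e * t)]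
  omega

theorem yU_room_w (hM : 1 ≤ M) (hw : EV n M * w ≤ t) {F : ℕ}
    (hF : (EV n M - 1) * t ≤ EV n M * F) : yU n M t * ell n M + w ≤ F := by
  have h := yU_mul_le n M t
  have h1 := F_ge_half (n := n) hM hF
  have hE16 := EV16 n hM
  have h2 : 16 * w ≤ t := by
    refine le_trans ?_ hw
    exact Nat.mul_le_mul_right _ (by omega)
  omega

/-- The virtual dimension is large. -/
theorem leR_room_w (hM : 1 ≤ M) (ht : TU n M ≤ t) (hw : EV n M * w ≤ t) {F : ℕ} (hF : F ≤ t) :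
    M * (qU n M * t) + ell (n + 1) M * (F + g0w n M w) + F + M * t +
      M * (ell (n + 1) M * (yU n M t + g0w n M w)) ≤ 4 * M * qU n M * t := by
  have hE := ell_pos n hM
  have hL := ell_pos (n + 1) hM
  have hy : yU n M t ≤ t := Nat.div_le_self _ _
  have hg : g0w n M w ≤ t := by
    unfold g0w
    have hb := base_bound ht hw
    refine le_trans ?_ hb
    calc M * (ell n M + w) = M * 1 * ((ell n M + w) * 1) := by ring
      _ ≤ M * (4 * (M + 1)) * ((ell n M + w) * ell n M) :=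
          Nat.mul_le_mul (Nat.mul_le_mul_left _ (by omega)) (Nat.mul_le_mul_left _ hE)
      _ = 4 * M * (M + 1) * ((ell n M + w) * ell n M) := by ring
  unfold qU
  generalize g0w n M w = g at *
  generalize yU n M t = y at *
  generalize ell n M = E at *
  generalize ell (n + 1) M = L at *
  -- elementary bounds
  have a1 : L * (F + g) ≤ L * (t + t) := Nat.mul_le_mul_left _ (by omega)
  have a2 : M * (L * (y + g)) ≤ M * (L * (t + t)) :=
    Nat.mul_le_mul_left _ (Nat.mul_le_mul_left _ (by omega))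
  have b1 : L * t ≤ M * (L * t) := Nat.le_mul_of_pos_left _ (by omega)
  have b2 : M * (L * t) ≤ M * (M * (L * t)) :=
    Nat.mul_le_mul_left _ (Nat.le_mul_of_pos_left _ (by omega))
  have b3 : M * (M * (L * t)) ≤ M * (M * (M * (L * t))) :=
    Nat.mul_le_mul_left _ (Nat.mul_le_mul_left _ (Nat.le_mul_of_pos_left _ (by omega)))
  have c1 : t ≤ M * t := Nat.le_mul_of_pos_left _ (by omega)
  have c2 : M * t ≤ M * (M * t) := Nat.mul_le_mul_left _ c1
  have c3 : M * (M * t) ≤ M * (M * (E * t)) :=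
    Nat.mul_le_mul_left _ (Nat.mul_le_mul_left _ (Nat.le_mul_of_pos_left _ (by omega)))
  calc M * ((2 * M ^ 2 * L + 4 * M * E) * t) + L * (F + g) + F + M * t + M * (L * (y + g))
      ≤ M * ((2 * M ^ 2 * L + 4 * M * E) * t) + L * (t + t) + t + M * t + M * (L * (t + t)) := by
        omega
    _ = M * ((2 * M ^ 2 * L + 4 * M * E) * t) + (2 * (L * t) + 2 * (M * (L * t))) +
          (t + M * t) := by ring
    _ ≤ M * ((2 * M ^ 2 * L + 4 * M * E) * t) + 4 * (M * (M * (M * (L * t)))) +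
          2 * (M * (M * (E * t))) := by omega
    _ ≤ M * ((2 * M ^ 2 * L + 4 * M * E) * t) + 6 * (M * (M * (M * (L * t)))) +
          12 * (M * (M * (E * t))) := by omega
    _ = 4 * M * (2 * M ^ 2 * L + 4 * M * E) * t := by ring

/-- Monotonicity of the bound. -/
theorem nphiw_mono (M w : ℕ) {f f' : ℕ} (h : f ≤ f') : nphiw n M w f ≤ nphiw n M w f' := by
  unfold nphiw
  exact Nat.add_le_add_right (Nat.div_le_div_right (Nat.mul_le_mul_left _ h)) _

end Pool.Agent.H18.Ub
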